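import Mathlib

open Finset Polynomial

noncomputable section

namespace Pool.Agent.Results.MP_eb5881_co.InvolutionDescents

/-- `Ω_n = {±1, …, ±n}`, as a finite set of integers. -/
abbrev Omega (n : ℕ) : Finset ℤ := (Finset.Icc (-(n : ℤ)) (n : ℤ)).erase 0

/-- The map `a ↦ -a` of `Ω_n`. -/
def negOmega {n : ℕ} (a : Omega n) : Omega n :=
  ⟨-a.1, by
    have h := a.2
    simp only [Finset.mem_erase, Finset.mem_Icc, ne_eq] at h ⊢
    omega⟩

/-- The hyperoctahedral group `B_n`: the bijections `w : Ω_n → Ω_n` with `w(-a) = -w(a)` for all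
`a ∈ Ω_n`. -/
def hyperoctahedral (n : ℕ) : Finset (Equiv.Perm (Omega n)) :=
  Finset.univ.filter (fun w => ∀ a, w (negOmega a) = negOmega (w a))

/-- `I_n^B`: the involutions of `B_n`, i.e. the elements `w` with `w ∘ w = id`. -/
def involutionsB (n : ℕ) : Finset (Equiv.Perm (Omega n)) :=
  (hyperoctahedral n).filter (fun w => ∀ a, w (w a) = a)

/-- The value `w(i)` as an integer, for `i ∈ Ω_n`, with the convention `w(0) = 0`
(the value is `0` for every integer outside `Ω_n`). -/
def value {n : ℕ} (w : Equiv.Perm (Omega n)) (i : ℤ) : ℤ :=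
  if h : i ∈ Omega n then (w ⟨i, h⟩ : ℤ) else 0

/-- The total order `-1 <_r -2 <_r -3 <_r ⋯ <_r 0 <_r 1 <_r 2 <_r ⋯` on the integers:
negative integers are ordered by increasing absolute value, they lie below `0` and the positive
integers, and the nonnegative integers keep their usual order. -/
def rlt (a b : ℤ) : Prop :=
  (a < 0 ∧ b < 0 ∧ b < a) ∨ (a < 0 ∧ 0 ≤ b) ∨ (0 ≤ a ∧ a < b)

instance (a b : ℤ) : Decidable (rlt a b) := by unfold rlt; infer_instance

/-- The set of `i ∈ {0, …, n-1}` with `w(i) >_r w(i+1)`. -/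
def descentSetR {n : ℕ} (w : Equiv.Perm (Omega n)) : Finset ℕ :=
  (Finset.range n).filter (fun i => rlt (value w ((i : ℤ) + 1)) (value w (i : ℤ)))

/-- The set of `i ∈ {0, …, n-1}` with `w(i) > w(i+1)` (usual order of the integers). -/
def descentSet {n : ℕ} (w : Equiv.Perm (Omega n)) : Finset ℕ :=
  (Finset.range n).filter (fun i => value w ((i : ℤ) + 1) < value w (i : ℤ))

/-- `des_B(w) = #{i ∈ {0, …, n-1} : w(i) >_r w(i+1)}`. -/
def desR {n : ℕ} (w : Equiv.Perm (Omega n)) : ℕ := (descentSetR w).card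

/-- `des^B(w) = #{i ∈ {0, …, n-1} : w(i) > w(i+1)}`, the Coxeter descent number of `B_n`. -/
def des {n : ℕ} (w : Equiv.Perm (Omega n)) : ℕ := (descentSet w).card

section core

variable {n : ℕ}

/-- The number of elements of `A` in block `i` that `τ` sends to block `j`. -/
def cellCount (A : Finset (Fin n)) (b : Fin n → ℕ) (τ : Fin n → Fin n) (i j : ℕ) : ℕ :=
  (A.filter (fun x => b x = i ∧ b (τ x) = j)).card

/-- `τ` is an involution preserving `A`. -/
def Good (A : Finset (Fin n)) (τ : Fin n → Fin n) : Prop :=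
  Function.Involutive τ ∧ ∀ x ∈ A, τ x ∈ A

theorem unique_aux (A : Finset (Fin n)) (b : Fin n → ℕ) (hb : Monotone b)
    (R : Fin n → Fin n → Prop) (Rtrans : ∀ x y z, R x y → R y z → R x z) (Rirr : ∀ x, ¬ R x x)
    (τ τ' : Fin n → Fin n) (hτ : Good A τ) (hτ' : Good A τ')
    (h1' : ∀ x ∈ A, ∀ y ∈ A, b x = b y → x < y → R (τ' x) (τ' y))
    (h2' : ∀ x ∈ A, ∀ y ∈ A, b x = b y → R x y → τ' x < τ' y)
    (mat : ∀ i j, cellCount A b τ i j = cellCount A b τ' i j)
    (a : Fin n) (haA : a ∈ A) (hlt : ∀ x < a, τ x = τ' x) (hR : R (τ a) (τ' a)) : False := by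
  obtain ⟨hinv, hA⟩ := hτ
  obtain ⟨hinv', hA'⟩ := hτ'
  have hcA : τ a ∈ A := hA a haA
  have ha'A : τ' (τ a) ∈ A := hA' _ hcA
  have hne : τ a ≠ τ' a := fun h => Rirr _ (h ▸ hR)
  have hτ'a' : τ' (τ' (τ a)) = τ a := hinv' _
  have haa' : a < τ' (τ a) := by
    rcases lt_trichotomy (τ' (τ a)) a with h | h | h
    · exfalso
      have h3 := hlt _ h
      rw [hτ'a'] at h3
      have h4 : τ' (τ a) = a := hinv.injective h3
      exact absurd h4 h.ne
    · exfalso
      rw [h] at hτ'a'
      exact hne hτ'a'.symm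
    · exact h
  have hb1 : b a < b (τ' (τ a)) := by
    refine lt_of_le_of_ne (hb haa'.le) ?_
    intro h
    have h3 := h1' a haA _ ha'A h haa'
    rw [hτ'a'] at h3
    exact Rirr _ (Rtrans _ _ _ hR h3)
  have key : cellCount A b τ' (b (τ a)) (b a) < cellCount A b τ (b (τ a)) (b a) := by
    unfold cellCount
    apply Finset.card_lt_card
    rw [Finset.ssubset_iff_of_subset]
    · refine ⟨τ a, ?_, ?_⟩
      · simp only [Finset.mem_filter]
        exact ⟨hcA, by simp, by rw [hinv a]⟩
      · simp only [Finset.mem_filter, not_and]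
        intro _ _ h
        exact absurd h hb1.ne'
    · intro y hy
      simp only [Finset.mem_filter] at hy ⊢
      obtain ⟨hyA, hy1, hy2⟩ := hy
      refine ⟨hyA, hy1, ?_⟩
      have hyy : τ' (τ' y) = y := hinv' y
      have hxA : τ' y ∈ A := hA' _ hyA
      have hno : ¬ R (τ a) y := by
        intro hRy
        have h5 := h2' _ hcA _ hyA hy1.symm hRy
        have h6 := hb h5.le
        omega
      rcases lt_trichotomy (τ' y) a with h | h | h
      · have h3 := hlt _ h
        rw [hyy] at h3
        have h4 : τ y = τ' y := by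
          have := hinv (τ' y)
          rw [h3] at this
          exact this
        rw [h4]; exact hy2
      · exfalso
        rw [h] at hyy
        rw [hyy] at hR
        exact hno hR
      · exfalso
        have h3 := h1' a haA _ hxA hy2.symm h
        rw [hyy] at h3
        exact hno (Rtrans _ _ _ hR h3)
  rw [mat] at key
  exact lt_irrefl _ key

theorem unique_of_class (A : Finset (Fin n)) (b : Fin n → ℕ) (hb : Monotone b)
    (R : Fin n → Fin n → Prop) (Rtrans : ∀ x y z, R x y → R y z → R x z) (Rirr : ∀ x, ¬ R x x)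
    (Rtri : ∀ x y, x ≠ y → R x y ∨ R y x)
    (τ τ' : Fin n → Fin n) (hτ : Good A τ) (hτ' : Good A τ')
    (h1 : ∀ x ∈ A, ∀ y ∈ A, b x = b y → x < y → R (τ x) (τ y))
    (h2 : ∀ x ∈ A, ∀ y ∈ A, b x = b y → R x y → τ x < τ y)
    (h1' : ∀ x ∈ A, ∀ y ∈ A, b x = b y → x < y → R (τ' x) (τ' y))
    (h2' : ∀ x ∈ A, ∀ y ∈ A, b x = b y → R x y → τ' x < τ' y)
    (off : ∀ x, x ∉ A → τ x = τ' x)
    (mat : ∀ i j, cellCount A b τ i j = cellCount A b τ' i j) : τ = τ' := by
  by_contra hne
  have hex : ∃ a, τ a ≠ τ' a := by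
    by_contra h
    push Not at h
    exact hne (funext h)
  classical
  obtain ⟨a, ha, hmin⟩ := Finset.exists_min_image (Finset.univ.filter (fun a => τ a ≠ τ' a)) id
    (by obtain ⟨a, ha⟩ := hex; exact ⟨a, by simpa using ha⟩)
  simp only [Finset.mem_filter, Finset.mem_univ, true_and, id] at ha hmin
  have hlt : ∀ x < a, τ x = τ' x := by
    intro x hx
    by_contra h
    exact absurd (hmin x h) (not_le.mpr hx)
  have haA : a ∈ A := by
    by_contra h
    exact ha (off a h)
  rcases Rtri _ _ ha with h | h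
  · exact unique_aux A b hb R Rtrans Rirr τ τ' hτ hτ' h1' h2' mat a haA hlt h
  · exact unique_aux A b hb R Rtrans Rirr τ' τ hτ' hτ h1 h2 (fun i j => (mat i j).symm) a haA
      (fun x hx => (hlt x hx).symm) h

/-- same class -/
def SameClass (A : Finset (Fin n)) (b : Fin n → ℕ) (τ τ' : Fin n → Fin n) : Prop :=
  (∀ x, x ∉ A → τ' x = τ x) ∧ ∀ i j, cellCount A b τ' i j = cellCount A b τ i j

theorem SameClass.refl (A : Finset (Fin n)) (b : Fin n → ℕ) (τ : Fin n → Fin n) :
    SameClass A b τ τ := ⟨fun _ _ => rfl, fun _ _ => rfl⟩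

theorem SameClass.trans {A : Finset (Fin n)} {b : Fin n → ℕ} {τ τ' τ'' : Fin n → Fin n}
    (h : SameClass A b τ τ') (h' : SameClass A b τ' τ'') : SameClass A b τ τ'' :=
  ⟨fun x hx => (h'.1 x hx).trans (h.1 x hx), fun i j => (h'.2 i j).trans (h.2 i j)⟩

theorem b_swap (b : Fin n → ℕ) {x y : Fin n} (hxy : b x = b y) (z : Fin n) :
    b (Equiv.swap x y z) = b z := by
  by_cases h1 : z = x
  · subst h1; rw [Equiv.swap_apply_left]; exact hxy.symm
  · by_cases h2 : z = y
    · subst h2; rw [Equiv.swap_apply_right]; exact hxy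
    · rw [Equiv.swap_apply_of_ne_of_ne h1 h2]

theorem mem_swap {A : Finset (Fin n)} {x y : Fin n} (hx : x ∈ A) (hy : y ∈ A) (z : Fin n) :
    Equiv.swap x y z ∈ A ↔ z ∈ A := by
  by_cases h1 : z = x
  · subst h1; rw [Equiv.swap_apply_left]; simp [hx, hy]
  · by_cases h2 : z = y
    · subst h2; rw [Equiv.swap_apply_right]; simp [hx, hy]
    · rw [Equiv.swap_apply_of_ne_of_ne h1 h2]

theorem swap_notMem {A : Finset (Fin n)} {x y : Fin n} (hx : x ∈ A) (hy : y ∈ A) {z : Fin n}
    (hz : z ∉ A) : Equiv.swap x y z = z :=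
  Equiv.swap_apply_of_ne_of_ne (fun h => hz (h ▸ hx)) (fun h => hz (h ▸ hy))

theorem Good.notMem {A : Finset (Fin n)} {τ : Fin n → Fin n} (h : Good A τ) {z : Fin n}
    (hz : z ∉ A) : τ z ∉ A := fun h' => hz (by have := h.2 _ h'; rwa [h.1 z] at this)

theorem conj_good {A : Finset (Fin n)} {τ : Fin n → Fin n} (h : Good A τ) {x y : Fin n}
    (hx : x ∈ A) (hy : y ∈ A) :
    Good A (fun z => Equiv.swap x y (τ (Equiv.swap x y z))) := by
  constructor
  · intro z
    simp only [Equiv.swap_apply_self]
    rw [h.1]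
    simp
  · intro z hz
    rw [mem_swap hx hy]
    exact h.2 _ ((mem_swap hx hy z).mpr hz)

theorem conj_class {A : Finset (Fin n)} {b : Fin n → ℕ} {τ : Fin n → Fin n} (h : Good A τ)
    {x y : Fin n} (hx : x ∈ A) (hy : y ∈ A) (hxy : b x = b y) :
    SameClass A b τ (fun z => Equiv.swap x y (τ (Equiv.swap x y z))) := by
  constructor
  · intro z hz
    simp only
    rw [swap_notMem hx hy hz, swap_notMem hx hy (h.notMem hz)]
  · intro i j
    unfold cellCount
    apply Finset.card_bij (fun z _ => Equiv.swap x y z)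
    · intro z hz
      simp only [Finset.mem_filter] at hz ⊢
      rw [mem_swap hx hy, b_swap b hxy]
      refine ⟨hz.1, hz.2.1, ?_⟩
      rw [← hz.2.2, b_swap b hxy]
    · intro z _ z' _ hzz
      exact (Equiv.swap x y).injective hzz
    · intro z hz
      simp only [Finset.mem_filter] at hz
      refine ⟨Equiv.swap x y z, ?_, by simp⟩
      simp only [Finset.mem_filter]
      rw [mem_swap hx hy, b_swap b hxy, b_swap b hxy]
      simpa using hz

theorem mul_good {A : Finset (Fin n)} {τ : Fin n → Fin n} (h : Good A τ) {x y : Fin n}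
    (hx : x ∈ A) (hy : y ∈ A) (hc : (τ x = x ∧ τ y = y) ∨ (τ x = y ∧ τ y = x)) :
    Good A (fun z => Equiv.swap x y (τ z)) := by
  constructor
  · intro z
    simp only
    by_cases h1 : z = x
    · subst h1
      rcases hc with ⟨h2, h3⟩ | ⟨h2, h3⟩ <;> simp [h2, h3]
    · by_cases h2 : z = y
      · subst h2
        rcases hc with ⟨h2, h3⟩ | ⟨h2, h3⟩ <;> simp [h2, h3]
      · have h3 : τ z ≠ x := by
          intro h4
          have h5 : τ x = z := by rw [← h4]; exact h.1 z
          rcases hc with ⟨h6, h7⟩ | ⟨h6, h7⟩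
          · exact h1 (by rw [← h5, h6])
          · exact h2 (by rw [← h5, h6])
        have h4 : τ z ≠ y := by
          intro h4
          have h5 : τ y = z := by rw [← h4]; exact h.1 z
          rcases hc with ⟨h6, h7⟩ | ⟨h6, h7⟩
          · exact h2 (by rw [← h5, h7])
          · exact h1 (by rw [← h5, h7])
        rw [Equiv.swap_apply_of_ne_of_ne h3 h4, h.1 z, Equiv.swap_apply_of_ne_of_ne h1 h2]
  · intro z hz
    rw [mem_swap hx hy]
    exact h.2 _ hz

theorem mul_class {A : Finset (Fin n)} {b : Fin n → ℕ} {τ : Fin n → Fin n} (h : Good A τ)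
    {x y : Fin n} (hx : x ∈ A) (hy : y ∈ A) (hxy : b x = b y) :
    SameClass A b τ (fun z => Equiv.swap x y (τ z)) := by
  constructor
  · intro z hz
    simp only
    rw [swap_notMem hx hy (h.notMem hz)]
  · intro i j
    unfold cellCount
    congr 1
    ext z
    simp only [Finset.mem_filter]
    rw [b_swap b hxy]

theorem lex_lt_of {σ τ : Fin n → Fin n} (i : Fin n) (h1 : ∀ j < i, σ j = τ j)
    (h2 : σ i < τ i) : toLex σ < toLex τ := ⟨i, h1, h2⟩

/-- In every class there is an element that is increasing on the blocks. -/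
theorem exists_inc (A : Finset (Fin n)) (b : Fin n → ℕ) (τ₀ : Fin n → Fin n) (h0 : Good A τ₀) :
    ∃ τ, Good A τ ∧ SameClass A b τ₀ τ ∧ ∀ x ∈ A, ∀ y ∈ A, b x = b y → x < y → τ x < τ y := by
  classical
  obtain ⟨τ, hτ, hmin⟩ := Finset.exists_min_image
    (Finset.univ.filter (fun τ : Fin n → Fin n => Good A τ ∧ SameClass A b τ₀ τ))
    (fun τ => toLex τ) ⟨τ₀, by simp [h0, SameClass.refl]⟩
  simp only [Finset.mem_filter, Finset.mem_univ, true_and] at hτ hmin
  obtain ⟨hg, hs⟩ := hτ
  refine ⟨τ, hg, hs, ?_⟩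
  intro x hx y hy hxy hlt
  by_contra hcon
  have hne : τ x ≠ τ y := fun h => hlt.ne (hg.1.injective h)
  have hlt2 : τ y < τ x := lt_of_le_of_ne (not_lt.mp hcon) hne.symm
  have hyx : τ (τ y) = y := hg.1 y
  have hxx : τ (τ x) = x := hg.1 x
  -- case analysis
  rcases lt_trichotomy (τ y) x with h | h | h
  · -- first difference at τ y
    have hlex := hmin _ ⟨conj_good hg hx hy, hs.trans (conj_class hg hx hy hxy)⟩
    refine absurd hlex (not_le.mpr (lex_lt_of (τ y) ?_ ?_))
    · intro j hj
      try simp only []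
      have h1 : j ≠ x := (hj.trans h).ne
      have h2 : j ≠ y := ((hj.trans h).trans hlt).ne
      rw [Equiv.swap_apply_of_ne_of_ne h1 h2]
      have h3 : τ j ≠ x := by
        intro h4; have h5 : τ x = j := by rw [← h4]; exact hg.1 j
        rw [h5] at hlt2; exact absurd hlt2 (not_lt.mpr hj.le)
      have h4 : τ j ≠ y := by
        intro h4; have h5 : τ y = j := by rw [← h4]; exact hg.1 j
        rw [h5] at hj; exact lt_irrefl _ hj
      rw [Equiv.swap_apply_of_ne_of_ne h3 h4]
    · try simp only []
      rw [Equiv.swap_apply_of_ne_of_ne h.ne (h.trans hlt).ne, hyx, Equiv.swap_apply_right]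
      exact hlt
  · -- τ y = x, τ x = y
    have h' : τ x = y := by rw [← h]; exact hyx
    have hlex := hmin _ ⟨mul_good hg hx hy (Or.inr ⟨h', h⟩), hs.trans (mul_class hg hx hy hxy)⟩
    refine absurd hlex (not_le.mpr (lex_lt_of (x) ?_ ?_))
    · intro j hj
      try simp only []
      have h3 : τ j ≠ x := by
        intro h4; have h5 : τ x = j := by rw [← h4]; exact hg.1 j
        rw [h'] at h5; rw [← h5] at hj; exact absurd hj (not_lt.mpr hlt.le)
      have h4 : τ j ≠ y := by
        intro h4; have h5 : τ y = j := by rw [← h4]; exact hg.1 j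
        rw [h] at h5; rw [← h5] at hj; exact lt_irrefl _ hj
      rw [Equiv.swap_apply_of_ne_of_ne h3 h4]
    · try simp only []
      rw [h', Equiv.swap_apply_right]
      exact hlt
  · -- x < τ y < τ x : first difference at x
    have hlex := hmin _ ⟨conj_good hg hx hy, hs.trans (conj_class hg hx hy hxy)⟩
    refine absurd hlex (not_le.mpr (lex_lt_of (x) ?_ ?_))
    · intro j hj
      try simp only []
      have h1 : j ≠ x := hj.ne
      have h2 : j ≠ y := (hj.trans hlt).ne
      rw [Equiv.swap_apply_of_ne_of_ne h1 h2]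
      have h3 : τ j ≠ x := by
        intro h4; have h5 : τ x = j := by rw [← h4]; exact hg.1 j
        rw [← h5] at hj; exact absurd (hj.trans h) (not_lt.mpr hlt2.le)
      have h4 : τ j ≠ y := by
        intro h4; have h5 : τ y = j := by rw [← h4]; exact hg.1 j
        rw [← h5] at hj; exact absurd hj (not_lt.mpr h.le)
      rw [Equiv.swap_apply_of_ne_of_ne h3 h4]
    · try simp only []
      rw [Equiv.swap_apply_left]
      by_cases h3 : τ y = y
      · rw [h3, Equiv.swap_apply_right]; exact h.trans hlt2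
      · rw [Equiv.swap_apply_of_ne_of_ne h.ne' h3]; exact hlt2

/-- In every class there is an element that is decreasing on the blocks. -/
theorem exists_dec (A : Finset (Fin n)) (b : Fin n → ℕ) (hb : Monotone b)
    (τ₀ : Fin n → Fin n) (h0 : Good A τ₀) :
    ∃ τ, Good A τ ∧ SameClass A b τ₀ τ ∧ ∀ x ∈ A, ∀ y ∈ A, b x = b y → x < y → τ y < τ x := by
  classical
  obtain ⟨τ, hτ, hmax⟩ := Finset.exists_max_image
    (Finset.univ.filter (fun τ : Fin n → Fin n => Good A τ ∧ SameClass A b τ₀ τ))
    (fun τ => toLex τ) ⟨τ₀, by simp [h0, SameClass.refl]⟩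
  simp only [Finset.mem_filter, Finset.mem_univ, true_and] at hτ hmax
  obtain ⟨hg, hs⟩ := hτ
  refine ⟨τ, hg, hs, ?_⟩
  have main : ∀ x ∈ A, ∀ y ∈ A, b x = b y → x < y → τ x < τ y → τ y = y ∧ x < τ x ∧ τ x < y := by
    intro x hx y hy hxy hlt hlt2
    have hyx : τ (τ y) = y := hg.1 y
    have hxx : τ (τ x) = x := hg.1 x
    rcases lt_trichotomy (τ x) x with h | h | h
    · -- first difference at τ x
      exfalso
      have hlex := hmax _ ⟨conj_good hg hx hy, hs.trans (conj_class hg hx hy hxy)⟩
      refine absurd hlex (not_le.mpr (lex_lt_of (τ x) ?_ ?_))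
      · intro j hj
        try simp only []
        have h1 : j ≠ x := (hj.trans h).ne
        have h2 : j ≠ y := ((hj.trans h).trans hlt).ne
        rw [Equiv.swap_apply_of_ne_of_ne h1 h2]
        have h3 : τ j ≠ x := by
          intro h4; have h5 : τ x = j := by rw [← h4]; exact hg.1 j
          rw [h5] at hj; exact lt_irrefl _ hj
        have h4 : τ j ≠ y := by
          intro h4; have h5 : τ y = j := by rw [← h4]; exact hg.1 j
          rw [h5] at hlt2; exact absurd hlt2 (not_lt.mpr hj.le)
        rw [Equiv.swap_apply_of_ne_of_ne h3 h4]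
      · try simp only []
        rw [Equiv.swap_apply_of_ne_of_ne h.ne (h.trans hlt).ne, hxx, Equiv.swap_apply_left]
        exact hlt
    · -- τ x = x
      exfalso
      by_cases h3 : τ y = y
      · have hlex := hmax _ ⟨mul_good hg hx hy (Or.inl ⟨h, h3⟩), hs.trans (mul_class hg hx hy hxy)⟩
        refine absurd hlex (not_le.mpr (lex_lt_of (x) ?_ ?_))
        · intro j hj
          try simp only []
          have h5 : τ j ≠ x := by
            intro h4; have h5 : τ x = j := by rw [← h4]; exact hg.1 j
            rw [h] at h5; rw [← h5] at hj; exact lt_irrefl _ hj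
          have h6 : τ j ≠ y := by
            intro h4; have h5 : τ y = j := by rw [← h4]; exact hg.1 j
            rw [h3] at h5; rw [← h5] at hj; exact absurd hj (not_lt.mpr hlt.le)
          rw [Equiv.swap_apply_of_ne_of_ne h5 h6]
        · try simp only []
          rw [h, Equiv.swap_apply_left]
          exact hlt
      · have hlex := hmax _ ⟨conj_good hg hx hy, hs.trans (conj_class hg hx hy hxy)⟩
        refine absurd hlex (not_le.mpr (lex_lt_of (x) ?_ ?_))
        · intro j hj
          try simp only []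
          have h1 : j ≠ x := hj.ne
          have h2 : j ≠ y := (hj.trans hlt).ne
          rw [Equiv.swap_apply_of_ne_of_ne h1 h2]
          have h5 : τ j ≠ x := by
            intro h4; have h5 : τ x = j := by rw [← h4]; exact hg.1 j
            rw [h] at h5; rw [← h5] at hj; exact lt_irrefl _ hj
          have h6 : τ j ≠ y := by
            intro h4; have h5 : τ y = j := by rw [← h4]; exact hg.1 j
            rw [h5] at hlt2; rw [h] at hlt2; exact absurd hlt2 (not_lt.mpr hj.le)
          rw [Equiv.swap_apply_of_ne_of_ne h5 h6]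
        · try simp only []
          rw [Equiv.swap_apply_left]
          rw [Equiv.swap_apply_of_ne_of_ne (by rw [← h]; exact hlt2.ne') h3]
          exact hlt2
    · -- x < τ x
      by_cases h3 : τ y = y
      · exact ⟨h3, h, by rw [h3] at hlt2; exact hlt2⟩
      · exfalso
        have hlex := hmax _ ⟨conj_good hg hx hy, hs.trans (conj_class hg hx hy hxy)⟩
        refine absurd hlex (not_le.mpr (lex_lt_of (x) ?_ ?_))
        · intro j hj
          try simp only []
          have h1 : j ≠ x := hj.ne
          have h2 : j ≠ y := (hj.trans hlt).ne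
          rw [Equiv.swap_apply_of_ne_of_ne h1 h2]
          have h5 : τ j ≠ x := by
            intro h4; have h5 : τ x = j := by rw [← h4]; exact hg.1 j
            rw [← h5] at hj; exact absurd hj (not_lt.mpr h.le)
          have h6 : τ j ≠ y := by
            intro h4; have h5 : τ y = j := by rw [← h4]; exact hg.1 j
            rw [← h5] at hj; exact absurd (hj.trans h) (not_lt.mpr hlt2.le)
          rw [Equiv.swap_apply_of_ne_of_ne h5 h6]
        · try simp only []
          rw [Equiv.swap_apply_left]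
          rw [Equiv.swap_apply_of_ne_of_ne (h.trans hlt2).ne' h3]
          exact hlt2
  intro x hx y hy hxy hlt
  by_contra hcon
  have hne : τ x ≠ τ y := fun h => hlt.ne (hg.1.injective h)
  have hlt2 : τ x < τ y := lt_of_le_of_ne (not_lt.mp hcon) hne
  obtain ⟨h1, h2, h3⟩ := main x hx y hy hxy hlt hlt2
  -- use the pair (τ x, y)
  have h4 := main (τ x) (hg.2 x hx) y hy
    (le_antisymm (hb h3.le) (by rw [← hxy]; exact hb h2.le)) h3
    (by rw [hg.1 x, h1]; exact hlt)
  rw [hg.1 x] at h4
  exact absurd h4.2.1 (not_lt.mpr h2.le)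

end core

section pairs

variable {n : ℕ}

/-- `Ω_n` is `Fin n × {sign}`. -/
def omegaEquiv (n : ℕ) : Omega n ≃ Fin n × Bool where
  toFun z := (⟨z.1.natAbs - 1, by
    have h := z.2
    simp only [Finset.mem_erase, Finset.mem_Icc, ne_eq] at h
    omega⟩, decide (z.1 < 0))
  invFun p := ⟨if p.2 then -((p.1 : ℤ) + 1) else (p.1 : ℤ) + 1, by
    have h := p.1.2
    simp only [Finset.mem_erase, Finset.mem_Icc, ne_eq]
    split_ifs <;> omega⟩
  left_inv z := by
    have h := z.2
    simp only [Finset.mem_erase, Finset.mem_Icc, ne_eq] at h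
    apply Subtype.ext
    simp only [decide_eq_true_eq]
    split_ifs with h1 <;> omega
  right_inv p := by
    have h := p.1.2
    obtain ⟨k, e⟩ := p
    cases e
    · simp only [Bool.false_eq_true, if_false, Prod.mk.injEq, decide_eq_false_iff_not]
      refine ⟨?_, by omega⟩
      apply Fin.ext
      simp only
      omega
    · simp only [if_true, Prod.mk.injEq, decide_eq_true_eq]
      refine ⟨?_, by omega⟩
      apply Fin.ext
      simp only
      omega

theorem omegaEquiv_symm_false (k : Fin n) : (((omegaEquiv n).symm (k, false)).1 : ℤ) = (k : ℤ) + 1 := by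
  simp [omegaEquiv]

theorem omegaEquiv_symm_true (k : Fin n) :
    (((omegaEquiv n).symm (k, true)).1 : ℤ) = -((k : ℤ) + 1) := by
  simp [omegaEquiv]

theorem negOmega_symm (k : Fin n) (e : Bool) :
    negOmega ((omegaEquiv n).symm (k, e)) = (omegaEquiv n).symm (k, !e) := by
  apply Subtype.ext
  cases e
  · simp only [Bool.not_false]
    rw [omegaEquiv_symm_true]
    simp only [negOmega]
    rw [omegaEquiv_symm_false]
  · simp only [Bool.not_true]
    rw [omegaEquiv_symm_false]
    simp only [negOmega]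
    rw [omegaEquiv_symm_true]
    ring

theorem val_eq (z : Omega n) : (z.1 : ℤ) =
    if (omegaEquiv n z).2 then -(((omegaEquiv n z).1 : ℤ) + 1) else ((omegaEquiv n z).1 : ℤ) + 1 := by
  conv_lhs => rw [← (omegaEquiv n).symm_apply_apply z]
  generalize omegaEquiv n z = p
  obtain ⟨k, e⟩ := p
  cases e
  · rw [omegaEquiv_symm_false]; simp
  · rw [omegaEquiv_symm_true]; simp

/-- The pair (`|w|`, positions of the negative values). -/
def toPair (w : Equiv.Perm (Omega n)) : (Fin n → Fin n) × Finset (Fin n) :=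
  (fun k => (omegaEquiv n (w ((omegaEquiv n).symm (k, false)))).1,
    Finset.univ.filter (fun k => (omegaEquiv n (w ((omegaEquiv n).symm (k, false)))).2 = true))

/-- The pairs `(σ, A)` with `σ` an involution of `Fin n` and `A` a `σ`-invariant set. -/
def IsPair (p : (Fin n → Fin n) × Finset (Fin n)) : Prop :=
  Function.Involutive p.1 ∧ ∀ x, p.1 x ∈ p.2 ↔ x ∈ p.2

theorem IsPair.good {p : (Fin n → Fin n) × Finset (Fin n)} (h : IsPair p) : Good p.2 p.1 :=
  ⟨h.1, fun x hx => (h.2 x).mpr hx⟩

theorem toPair_isPair {w : Equiv.Perm (Omega n)} (hw : w ∈ involutionsB n) : IsPair (toPair w) := by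
  simp only [involutionsB, hyperoctahedral, Finset.mem_filter, Finset.mem_univ, true_and] at hw
  obtain ⟨hodd, hinv⟩ := hw
  -- `g` on `Fin n × Bool`
  have key : ∀ k : Fin n, ∀ e : Bool,
      omegaEquiv n (w ((omegaEquiv n).symm (k, e))) =
      ((toPair w).1 k, xor e (decide (k ∈ (toPair w).2))) := by
    intro k e
    have h0 : omegaEquiv n (w ((omegaEquiv n).symm (k, false))) =
      ((toPair w).1 k, decide (k ∈ (toPair w).2)) := by
      apply Prod.ext
      · rfl
      · simp [toPair]
    cases e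
    · rw [h0]; simp
    · have h1 := negOmega_symm k false
      simp only [Bool.not_false] at h1
      rw [← h1, hodd]
      have h2 : w ((omegaEquiv n).symm (k, false)) = (omegaEquiv n).symm
        ((toPair w).1 k, decide (k ∈ (toPair w).2)) := by
        rw [← h0]; simp
      rw [h2, negOmega_symm]
      simp
  have main : ∀ k : Fin n, ((toPair w).1 ((toPair w).1 k) = k) ∧
      (((toPair w).1 k ∈ (toPair w).2) ↔ k ∈ (toPair w).2) := by
    intro k
    have h1 := key k false
    have h2 := key ((toPair w).1 k) (xor false (decide (k ∈ (toPair w).2)))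
    rw [← h1, Equiv.symm_apply_apply, hinv, Equiv.apply_symm_apply] at h2
    have h3 := congrArg Prod.fst h2
    have h4 := congrArg Prod.snd h2
    simp only at h3 h4
    refine ⟨h3.symm, ?_⟩
    by_cases h5 : k ∈ (toPair w).2 <;> by_cases h6 : (toPair w).1 k ∈ (toPair w).2 <;>
      simp [h5, h6] at h4 ⊢
  exact ⟨fun k => (main k).1, fun k => (main k).2⟩

theorem toPair_injOn : Set.InjOn (toPair (n := n)) (involutionsB n : Set (Equiv.Perm (Omega n))) := by
  intro w hw w' hw' h
  simp only [involutionsB, hyperoctahedral, Finset.coe_filter, Finset.mem_filter, Finset.mem_univ, true_and, Set.mem_ofPred_eq] at hw hw'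
  have h0 : ∀ k : Fin n, w ((omegaEquiv n).symm (k, false)) = w' ((omegaEquiv n).symm (k, false)) := by
    intro k
    apply (omegaEquiv n).injective
    apply Prod.ext
    · exact congrFun (congrArg Prod.fst h) k
    · have h1 := congrArg Prod.snd h
      simp only [toPair] at h1
      have h2 := Finset.ext_iff.mp h1 k
      simp only [Finset.mem_filter, Finset.mem_univ, true_and] at h2
      exact Bool.eq_iff_iff.mpr h2
  apply Equiv.ext
  intro z
  obtain ⟨⟨k, e⟩, rfl⟩ := (omegaEquiv n).symm.surjective z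
  cases e
  · exact h0 k
  · have h1 := negOmega_symm k false
    simp only [Bool.not_false] at h1
    rw [← h1, hw.1, hw'.1, h0]

theorem toPair_surj {p : (Fin n → Fin n) × Finset (Fin n)} (hp : IsPair p) :
    ∃ w ∈ involutionsB n, toPair w = p := by
  obtain ⟨σ, A⟩ := p
  obtain ⟨hinv, hA⟩ := hp
  simp only at hinv hA
  set g : Fin n × Bool → Fin n × Bool := fun q => (σ q.1, xor q.2 (decide (q.1 ∈ A))) with hg
  have hgi : Function.Involutive g := by
    intro q
    obtain ⟨k, e⟩ := q
    simp only [hg]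
    rw [hinv k]
    apply Prod.ext
    · rfl
    · simp only
      have := hA k
      by_cases h5 : k ∈ A <;> simp_all
  set w : Equiv.Perm (Omega n) := (omegaEquiv n).symm.permCongr (hgi.toPerm g) with hw
  have hwk : ∀ k e, w ((omegaEquiv n).symm (k, e)) = (omegaEquiv n).symm (g (k, e)) := by
    intro k e
    rw [hw]
    simp [Equiv.permCongr_apply]
  refine ⟨w, ?_, ?_⟩
  · simp only [involutionsB, hyperoctahedral, Finset.mem_filter, Finset.mem_univ, true_and]
    constructor
    · intro z
      obtain ⟨⟨k, e⟩, rfl⟩ := (omegaEquiv n).symm.surjective z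
      rw [negOmega_symm, hwk, hwk]
      simp only [hg]
      rw [negOmega_symm]
      cases e <;> simp
    · intro z
      obtain ⟨⟨k, e⟩, rfl⟩ := (omegaEquiv n).symm.surjective z
      rw [hwk]
      have := hwk (g (k, e)).1 (g (k, e)).2
      rw [Prod.mk.eta] at this
      rw [this, hgi]
  · apply Prod.ext
    · funext k
      simp only [toPair]
      rw [hwk, Equiv.apply_symm_apply]
    · ext k
      simp only [toPair, Finset.mem_filter, Finset.mem_univ, true_and]
      rw [hwk, Equiv.apply_symm_apply]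
      simp [hg]

/-- The sequence `w(0) = 0, w(1), …, w(n)` of the signed involution of a pair. -/
def seq (p : (Fin n → Fin n) × Finset (Fin n)) (i : ℕ) : ℤ :=
  if h : 1 ≤ i ∧ i ≤ n then
    (if (⟨i - 1, by omega⟩ : Fin n) ∈ p.2 then -((p.1 ⟨i - 1, by omega⟩ : ℤ) + 1)
      else (p.1 ⟨i - 1, by omega⟩ : ℤ) + 1)
  else 0

theorem seq_zero (p : (Fin n → Fin n) × Finset (Fin n)) : seq p 0 = 0 := by simp [seq]

theorem seq_succ (p : (Fin n → Fin n) × Finset (Fin n)) (k : Fin n) :
    seq p (k + 1) = if k ∈ p.2 then -((p.1 k : ℤ) + 1) else (p.1 k : ℤ) + 1 := by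
  have h : 1 ≤ (k : ℕ) + 1 ∧ (k : ℕ) + 1 ≤ n := ⟨by omega, k.2⟩
  simp only [seq, h, and_self, dite_true, Nat.add_sub_cancel, Fin.eta]

theorem value_eq_seq (w : Equiv.Perm (Omega n)) (i : ℕ) (hi : i ≤ n) :
    value w (i : ℤ) = seq (toPair w) i := by
  rcases Nat.eq_zero_or_pos i with rfl | hpos
  · simp [value, seq_zero]
  · obtain ⟨k, rfl⟩ : ∃ k, i = k + 1 := ⟨i - 1, by omega⟩
    have hk : k < n := by omega
    have hmem : ((k + 1 : ℕ) : ℤ) ∈ Omega n := by
      simp only [Finset.mem_erase, Finset.mem_Icc, ne_eq]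
      omega
    have h1 : value w ((k + 1 : ℕ) : ℤ) = (w ⟨((k + 1 : ℕ) : ℤ), hmem⟩ : ℤ) := by
      simp only [value, hmem, dite_true]
    rw [h1]
    have h2 : (⟨((k + 1 : ℕ) : ℤ), hmem⟩ : Omega n) = (omegaEquiv n).symm (⟨k, hk⟩, false) := by
      apply Subtype.ext
      rw [omegaEquiv_symm_false]
      push_cast; rfl
    rw [h2, val_eq]
    have h3 := seq_succ (toPair w) ⟨k, hk⟩
    simp only at h3
    rw [h3]
    have h4 : (⟨k, hk⟩ : Fin n) ∈ (toPair w).2 ↔
        (omegaEquiv n (w ((omegaEquiv n).symm (⟨k, hk⟩, false)))).2 = true := by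
      simp [toPair]
    by_cases h5 : (⟨k, hk⟩ : Fin n) ∈ (toPair w).2
    · rw [if_pos h5, if_pos (h4.mp h5)]; rfl
    · rw [if_neg h5, if_neg (fun h => h5 (h4.mpr h))]; rfl

end pairs

section counting

variable {n : ℕ}

theorem seq_neg_iff (p : (Fin n → Fin n) × Finset (Fin n)) (k : Fin n) :
    seq p (k + 1) < 0 ↔ k ∈ p.2 := by
  rw [seq_succ]
  split_ifs with h
  · simp only [h, iff_true]; omega
  · simp only [h, iff_false]; omega

theorem seq_ne {p : (Fin n → Fin n) × Finset (Fin n)} (hp : IsPair p) {i j : ℕ} (hi : i ≤ n)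
    (hj : j ≤ n) (hij : i < j) : seq p i ≠ seq p j := by
  obtain ⟨l, rfl⟩ : ∃ l, j = l + 1 := ⟨j - 1, by omega⟩
  have hl : l < n := by omega
  have h1 := seq_succ p ⟨l, hl⟩
  simp only at h1
  rcases Nat.eq_zero_or_pos i with rfl | hpos
  · rw [seq_zero, h1]
    split_ifs <;> omega
  · obtain ⟨k, rfl⟩ : ∃ k, i = k + 1 := ⟨i - 1, by omega⟩
    have hk : k < n := by omega
    have h2 := seq_succ p ⟨k, hk⟩
    simp only at h2
    rw [h1, h2]
    have hne : p.1 ⟨k, hk⟩ ≠ p.1 ⟨l, hl⟩ := by
      intro h
      have := hp.1.injective h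
      simp only [Fin.mk.injEq] at this
      omega
    have hne' : (p.1 ⟨k, hk⟩ : ℕ) ≠ (p.1 ⟨l, hl⟩ : ℕ) := fun h => hne (Fin.ext h)
    split_ifs <;> omega

/-- The block of the position `i`. -/
def blk (S : Finset ℕ) (i : ℕ) : ℕ := (S.filter (fun s => s < i)).card

theorem blk_mono (S : Finset ℕ) : Monotone (blk S) := by
  intro i j hij
  apply Finset.card_le_card
  intro s hs
  simp only [Finset.mem_filter] at hs ⊢
  exact ⟨hs.1, by omega⟩

theorem blk_succ (S : Finset ℕ) (i : ℕ) : blk S i = blk S (i + 1) ↔ i ∉ S := by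
  constructor
  · intro h hi
    have : blk S i < blk S (i + 1) := by
      apply Finset.card_lt_card
      rw [Finset.ssubset_iff_of_subset]
      · exact ⟨i, by simp [hi], by simp⟩
      · intro s hs
        simp only [Finset.mem_filter] at hs ⊢
        exact ⟨hs.1, by omega⟩
    omega
  · intro h
    unfold blk
    congr 1
    ext s
    simp only [Finset.mem_filter]
    constructor
    · rintro ⟨h1, h2⟩; exact ⟨h1, by omega⟩
    · rintro ⟨h1, h2⟩
      refine ⟨h1, ?_⟩
      rcases Nat.lt_succ_iff_lt_or_eq.mp h2 with h3 | h3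
      · exact h3
      · exact absurd (h3 ▸ h1) h

/-- local ascent conditions are the same as ascent on blocks -/
theorem local_iff_block (S : Finset ℕ) (R : ℤ → ℤ → Prop)
    (Rtrans : ∀ x y z, R x y → R y z → R x z) (W : ℕ → ℤ) :
    (∀ i, i < n → i ∉ S → R (W i) (W (i + 1))) ↔
    (∀ i j, i < j → j ≤ n → blk S i = blk S j → R (W i) (W j)) := by
  constructor
  · intro h i j hij
    induction j, hij using Nat.le_induction with
    | base =>
      intro hj hb
      exact h i (by omega) ((blk_succ S i).mp hb)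
    | succ j hij ih =>
      intro hj hb
      have h1 : blk S i ≤ blk S j := blk_mono S (by omega)
      have h2 : blk S j ≤ blk S (j + 1) := blk_mono S (by omega)
      have h3 : blk S i = blk S j := by omega
      have h4 : blk S j = blk S (j + 1) := by omega
      exact Rtrans _ _ _ (ih (by omega) h3) (h j (by omega) ((blk_succ S j).mp h4))
  · intro h i hi hS
    exact h i (i + 1) (by omega) (by omega) ((blk_succ S i).mpr hS)

theorem rlt_trans (x y z : ℤ) (h : rlt x y) (h' : rlt y z) : rlt x z := by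
  unfold rlt at *; omega

theorem rlt_iff (x y : ℤ) (h : x ≠ y) : ¬ rlt y x ↔ rlt x y := by
  unfold rlt; omega

/-- The conditions on `(σ, A)` that are the same for both orders. -/
def Common (S : Finset ℕ) (p : (Fin n → Fin n) × Finset (Fin n)) : Prop :=
  ∀ i j, i < j → j ≤ n → blk S i = blk S j → (seq p j < 0 → seq p i < 0) ∧
    (0 ≤ seq p i → 0 ≤ seq p j → seq p i < seq p j)

/-- `σ` is increasing on the part of `A` in each block. -/
def Inc (S : Finset ℕ) (p : (Fin n → Fin n) × Finset (Fin n)) : Prop :=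
  ∀ x ∈ p.2, ∀ y ∈ p.2, blk S (x + 1) = blk S (y + 1) → x < y → p.1 x < p.1 y

/-- `σ` is decreasing on the part of `A` in each block. -/
def Dec (S : Finset ℕ) (p : (Fin n → Fin n) × Finset (Fin n)) : Prop :=
  ∀ x ∈ p.2, ∀ y ∈ p.2, blk S (x + 1) = blk S (y + 1) → x < y → p.1 y < p.1 x

theorem exists_index {p : (Fin n → Fin n) × Finset (Fin n)} {i : ℕ} (hi : i ≤ n)
    (h : seq p i < 0) : ∃ x : Fin n, i = x + 1 ∧ x ∈ p.2 ∧ seq p i = -((p.1 x : ℤ) + 1) := by
  rcases Nat.eq_zero_or_pos i with rfl | hpos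
  · rw [seq_zero] at h; exact absurd h (lt_irrefl _)
  · obtain ⟨k, rfl⟩ : ∃ k, i = k + 1 := ⟨i - 1, by omega⟩
    have hk : k < n := by omega
    refine ⟨⟨k, hk⟩, rfl, ?_⟩
    have h1 := seq_succ p ⟨k, hk⟩
    have h2 := seq_neg_iff p ⟨k, hk⟩
    simp only at h1 h2
    have h3 := h2.mp h
    rw [if_pos h3] at h1
    exact ⟨h3, h1⟩

theorem block_lt_iff (S : Finset ℕ) (p : (Fin n → Fin n) × Finset (Fin n)) :
    (∀ i j, i < j → j ≤ n → blk S i = blk S j → seq p i < seq p j) ↔
    Common S p ∧ Dec S p := by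
  constructor
  · intro h
    refine ⟨fun i j hij hj hb => ⟨fun h1 => (h i j hij hj hb).trans h1, fun _ _ => h i j hij hj hb⟩, ?_⟩
    intro x hx y hy hb hxy
    have h1 := h (x + 1) (y + 1) (by have := Fin.lt_def.mp hxy; omega) (by omega) hb
    rw [seq_succ, seq_succ, if_pos hx, if_pos hy] at h1
    rw [Fin.lt_def]; omega
  · rintro ⟨hc, hd⟩ i j hij hj hb
    obtain ⟨h1, h2⟩ := hc i j hij hj hb
    by_cases hj0 : seq p j < 0
    · have hi0 := h1 hj0
      obtain ⟨x, rfl, hx, hx'⟩ := exists_index (by omega) hi0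
      obtain ⟨y, rfl, hy, hy'⟩ := exists_index hj hj0
      have h3 := hd x hx y hy hb (by rw [Fin.lt_def]; omega)
      rw [Fin.lt_def] at h3
      rw [hx', hy']; omega
    · by_cases hi0 : seq p i < 0
      · omega
      · exact h2 (by omega) (by omega)

theorem block_rlt_iff (S : Finset ℕ) (p : (Fin n → Fin n) × Finset (Fin n)) :
    (∀ i j, i < j → j ≤ n → blk S i = blk S j → rlt (seq p i) (seq p j)) ↔
    Common S p ∧ Inc S p := by
  constructor
  · intro h
    refine ⟨fun i j hij hj hb => ⟨fun h1 => ?_, fun h1 h2 => ?_⟩, ?_⟩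
    · have h2 := h i j hij hj hb
      unfold rlt at h2; omega
    · have h3 := h i j hij hj hb
      unfold rlt at h3; omega
    · intro x hx y hy hb hxy
      have h1 := h (x + 1) (y + 1) (by have := Fin.lt_def.mp hxy; omega) (by omega) hb
      rw [seq_succ, seq_succ, if_pos hx, if_pos hy] at h1
      rw [Fin.lt_def]
      unfold rlt at h1; omega
  · rintro ⟨hc, hd⟩ i j hij hj hb
    obtain ⟨h1, h2⟩ := hc i j hij hj hb
    by_cases hj0 : seq p j < 0
    · have hi0 := h1 hj0
      obtain ⟨x, rfl, hx, hx'⟩ := exists_index (by omega) hi0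
      obtain ⟨y, rfl, hy, hy'⟩ := exists_index hj hj0
      have h3 := hd x hx y hy hb (by rw [Fin.lt_def]; omega)
      rw [Fin.lt_def] at h3
      rw [hx', hy']
      unfold rlt; omega
    · by_cases hi0 : seq p i < 0
      · unfold rlt; omega
      · have := h2 (by omega) (by omega)
        unfold rlt; omega

theorem common_congr {S : Finset ℕ} {σ τ : Fin n → Fin n} {A : Finset (Fin n)}
    (h : ∀ x, x ∉ A → τ x = σ x) (hc : Common S (σ, A)) : Common S (τ, A) := by
  have key : ∀ i, i ≤ n → (seq (τ, A) i < 0 ↔ seq (σ, A) i < 0) ∧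
      (0 ≤ seq (σ, A) i → seq (τ, A) i = seq (σ, A) i) := by
    intro i hi
    rcases Nat.eq_zero_or_pos i with rfl | hpos
    · rw [seq_zero, seq_zero]; simp
    · obtain ⟨k, rfl⟩ : ∃ k, i = k + 1 := ⟨i - 1, by omega⟩
      have hk : k < n := by omega
      have h1 := seq_succ (τ, A) ⟨k, hk⟩
      have h2 := seq_succ (σ, A) ⟨k, hk⟩
      have h3 := seq_neg_iff (τ, A) ⟨k, hk⟩
      have h4 := seq_neg_iff (σ, A) ⟨k, hk⟩
      simp only at h1 h2 h3 h4
      refine ⟨h3.trans h4.symm, ?_⟩
      intro h5
      have h6 : (⟨k, hk⟩ : Fin n) ∉ A := fun h7 => absurd (h4.mpr h7) (not_lt.mpr h5)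
      rw [h1, h2, if_neg h6, if_neg h6, h _ h6]
  intro i j hij hj hb
  obtain ⟨h1, h2⟩ := hc i j hij hj hb
  obtain ⟨k1, k2⟩ := key i (by omega)
  obtain ⟨k3, k4⟩ := key j hj
  refine ⟨fun h5 => k1.mpr (h1 (k3.mp h5)), fun h5 h6 => ?_⟩
  have h7 : 0 ≤ seq (σ, A) i := by
    by_contra h8; exact absurd (k1.mpr (not_le.mp h8)) (not_lt.mpr h5)
  have h8 : 0 ≤ seq (σ, A) j := by
    by_contra h9; exact absurd (k3.mpr (not_le.mp h9)) (not_lt.mpr h6)
  rw [k2 h7, k4 h8]
  exact h2 h7 h8

open Classical in
/-- The class of a pair. -/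
def classOf (S : Finset ℕ) (p : (Fin n → Fin n) × Finset (Fin n)) :
    Finset (Fin n) × (Fin n → Option (Fin n)) × (ℕ → ℕ → ℕ) :=
  (p.2, fun x => if x ∈ p.2 then none else some (p.1 x),
    fun i j => cellCount p.2 (fun x => blk S (x + 1)) p.1 i j)

theorem classOf_eq {S : Finset ℕ} {σ τ : Fin n → Fin n} {A B : Finset (Fin n)}
    (h : classOf S (σ, A) = classOf S (τ, B)) :
    A = B ∧ (∀ x, x ∉ A → σ x = τ x) ∧ ∀ i j, cellCount A (fun x => blk S (x + 1)) σ i j =
      cellCount A (fun x => blk S (x + 1)) τ i j := by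
  simp only [classOf, Prod.mk.injEq] at h
  obtain ⟨rfl, h1, h2⟩ := h
  refine ⟨rfl, ?_, ?_⟩
  · intro x hx
    have := congrFun h1 x
    simpa [hx] using this
  · intro i j
    exact congrFun (congrFun h2 i) j

theorem classOf_of_sameClass {S : Finset ℕ} {σ τ : Fin n → Fin n} {A : Finset (Fin n)}
    (h : SameClass A (fun x => blk S (x + 1)) σ τ) : classOf S (τ, A) = classOf S (σ, A) := by
  simp only [classOf, Prod.mk.injEq, true_and]
  constructor
  · funext x
    by_cases hx : x ∈ A
    · simp [hx]
    · simp [hx, h.1 x hx]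
  · funext i j
    exact h.2 i j

theorem blk_fin_mono (S : Finset ℕ) : Monotone (fun x : Fin n => blk S (x + 1)) := by
  intro x y hxy
  exact blk_mono S (by have := Fin.le_def.mp hxy; omega)

theorem isPair_of_good {τ : Fin n → Fin n} {A : Finset (Fin n)} (h : Good A τ) :
    IsPair (τ, A) := by
  refine ⟨h.1, fun x => ⟨fun h1 => ?_, fun h1 => h.2 x h1⟩⟩
  have := h.2 _ h1
  simp only at this
  rwa [h.1 x] at this

open Classical in
theorem card_inc_eq_card_dec (S : Finset ℕ) :
    (Finset.univ.filter (fun p : (Fin n → Fin n) × Finset (Fin n) =>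
      IsPair p ∧ Common S p ∧ Inc S p)).card =
    (Finset.univ.filter (fun p : (Fin n → Fin n) × Finset (Fin n) =>
      IsPair p ∧ Common S p ∧ Dec S p)).card := by
  rw [← Finset.card_image_of_injOn (f := classOf S) (s := Finset.univ.filter
      (fun p : (Fin n → Fin n) × Finset (Fin n) => IsPair p ∧ Common S p ∧ Inc S p)),
    ← Finset.card_image_of_injOn (f := classOf S) (s := Finset.univ.filter
      (fun p : (Fin n → Fin n) × Finset (Fin n) => IsPair p ∧ Common S p ∧ Dec S p))]
  · congr 1
    ext c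
    simp only [Finset.mem_image, Finset.mem_filter, Finset.mem_univ, true_and]
    constructor
    · rintro ⟨⟨σ, A⟩, ⟨hp, hc, _⟩, rfl⟩
      obtain ⟨τ, hg, hs, hd⟩ := exists_dec A (fun x => blk S (x + 1)) (blk_fin_mono S) σ hp.good
      exact ⟨(τ, A), ⟨isPair_of_good hg, common_congr hs.1 hc, hd⟩, classOf_of_sameClass hs⟩
    · rintro ⟨⟨σ, A⟩, ⟨hp, hc, _⟩, rfl⟩
      obtain ⟨τ, hg, hs, hd⟩ := exists_inc A (fun x => blk S (x + 1)) σ hp.good
      exact ⟨(τ, A), ⟨isPair_of_good hg, common_congr hs.1 hc, hd⟩, classOf_of_sameClass hs⟩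
  · rintro ⟨σ, A⟩ h1 ⟨τ, B⟩ h2 h
    simp only [Finset.coe_filter, Finset.mem_univ, true_and, Set.mem_ofPred_eq] at h1 h2
    obtain ⟨hp1, _, hd1⟩ := h1
    obtain ⟨hp2, _, hd2⟩ := h2
    obtain ⟨rfl, hoff, hmat⟩ := classOf_eq h
    have := unique_of_class A (fun x => blk S (x + 1)) (blk_fin_mono S) (fun x y => y < x)
      (fun x y z h h' => lt_trans h' h) (fun x => lt_irrefl x)
      (fun x y h => (lt_or_gt_of_ne h).symm) σ τ hp1.good hp2.good hd1
      (fun x hx y hy hb hlt => hd1 y hy x hx hb.symm hlt)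
      hd2
      (fun x hx y hy hb hlt => hd2 y hy x hx hb.symm hlt)
      hoff hmat
    rw [this]
  · rintro ⟨σ, A⟩ h1 ⟨τ, B⟩ h2 h
    simp only [Finset.coe_filter, Finset.mem_univ, true_and, Set.mem_ofPred_eq] at h1 h2
    obtain ⟨hp1, _, hd1⟩ := h1
    obtain ⟨hp2, _, hd2⟩ := h2
    obtain ⟨rfl, hoff, hmat⟩ := classOf_eq h
    have := unique_of_class A (fun x => blk S (x + 1)) (blk_fin_mono S) (fun x y => x < y)
      (fun x y z h h' => lt_trans h h') (fun x => lt_irrefl x)
      (fun x y h => (lt_or_gt_of_ne h)) σ τ hp1.good hp2.good hd1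
      (fun x hx y hy hb hlt => hd1 x hx y hy hb hlt)
      hd2
      (fun x hx y hy hb hlt => hd2 x hx y hy hb hlt)
      hoff hmat
    rw [this]

/-- `Des(w) ⊆ S` in terms of the sequence of values. -/
theorem descentSet_subset_iff (S : Finset ℕ) {w : Equiv.Perm (Omega n)}
    (hw : w ∈ involutionsB n) :
    descentSet w ⊆ S ↔ Common S (toPair w) ∧ Dec S (toPair w) := by
  rw [← block_lt_iff, ← local_iff_block S (fun x y => x < y) (fun x y z h h' => lt_trans h h')]
  unfold descentSet
  constructor
  · intro h i hi hS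
    by_contra hcon
    apply hS
    apply h
    simp only [Finset.mem_filter, Finset.mem_range]
    refine ⟨hi, ?_⟩
    have h1 := value_eq_seq w i (by omega)
    have h2 := value_eq_seq w (i + 1) (by omega)
    push_cast at h2
    rw [h1, h2]
    exact lt_of_le_of_ne (not_lt.mp hcon)
      (seq_ne (toPair_isPair hw) (by omega) (by omega) (by omega)).symm
  · intro h i hi
    simp only [Finset.mem_filter, Finset.mem_range] at hi
    by_contra hS
    have h1 := value_eq_seq w i (by omega)
    have h2 := value_eq_seq w (i + 1) (by omega)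
    push_cast at h2
    rw [h1, h2] at hi
    exact absurd (h i hi.1 hS) (not_lt.mpr hi.2.le)

theorem descentSetR_subset_iff (S : Finset ℕ) {w : Equiv.Perm (Omega n)}
    (hw : w ∈ involutionsB n) :
    descentSetR w ⊆ S ↔ Common S (toPair w) ∧ Inc S (toPair w) := by
  rw [← block_rlt_iff, ← local_iff_block S rlt rlt_trans]
  unfold descentSetR
  constructor
  · intro h i hi hS
    by_contra hcon
    apply hS
    apply h
    simp only [Finset.mem_filter, Finset.mem_range]
    refine ⟨hi, ?_⟩
    have h1 := value_eq_seq w i (by omega)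
    have h2 := value_eq_seq w (i + 1) (by omega)
    push_cast at h2
    rw [h1, h2]
    by_contra hcon2
    exact hcon ((rlt_iff _ _ (seq_ne (toPair_isPair hw) (by omega) (by omega) (by omega))).mp hcon2)
  · intro h i hi
    simp only [Finset.mem_filter, Finset.mem_range] at hi
    by_contra hS
    have h1 := value_eq_seq w i (by omega)
    have h2 := value_eq_seq w (i + 1) (by omega)
    push_cast at h2
    rw [h1, h2] at hi
    exact absurd hi.2 ((rlt_iff _ _
      (seq_ne (toPair_isPair hw) (by omega) (by omega) (by omega))).mpr (h i hi.1 hS))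

open Classical in
theorem card_transfer (Q : (Fin n → Fin n) × Finset (Fin n) → Prop) :
    ((involutionsB n).filter (fun w => Q (toPair w))).card =
    (Finset.univ.filter (fun p : (Fin n → Fin n) × Finset (Fin n) => IsPair p ∧ Q p)).card := by
  apply Finset.card_bij (fun w _ => toPair w)
  · intro w hw
    simp only [Finset.mem_filter] at hw
    simp only [Finset.mem_filter, Finset.mem_univ, true_and]
    exact ⟨toPair_isPair hw.1, hw.2⟩
  · intro w hw w' hw' h
    simp only [Finset.mem_filter] at hw hw'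
    exact toPair_injOn hw.1 hw'.1 h
  · intro p hp
    simp only [Finset.mem_filter, Finset.mem_univ, true_and] at hp
    obtain ⟨w, hw, rfl⟩ := toPair_surj hp.1
    exact ⟨w, by simp only [Finset.mem_filter]; exact ⟨hw, hp.2⟩, rfl⟩

theorem card_subset_eq (S : Finset ℕ) :
    ((involutionsB n).filter (fun w => descentSetR w ⊆ S)).card =
    ((involutionsB n).filter (fun w => descentSet w ⊆ S)).card := by
  classical
  have h1 : (involutionsB n).filter (fun w => descentSetR w ⊆ S) =
      (involutionsB n).filter (fun w => Common S (toPair w) ∧ Inc S (toPair w)) := by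
    apply Finset.filter_congr
    intro w hw
    exact descentSetR_subset_iff S hw
  have h2 : (involutionsB n).filter (fun w => descentSet w ⊆ S) =
      (involutionsB n).filter (fun w => Common S (toPair w) ∧ Dec S (toPair w)) := by
    apply Finset.filter_congr
    intro w hw
    exact descentSet_subset_iff S hw
  have h3 := card_transfer (n := n) (fun p => Common S p ∧ Inc S p)
  have h4 := card_transfer (n := n) (fun p => Common S p ∧ Dec S p)
  have h5 := card_inc_eq_card_dec (n := n) S
  rw [h1, h2]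
  refine Eq.trans ?_ (h3.trans (Eq.trans ?_ (h5.trans (Eq.trans ?_ (h4.symm.trans ?_)))))
  all_goals congr

theorem card_eq_of_subset {α : Type*} (I : Finset α) (D1 D2 : α → Finset ℕ)
    (h : ∀ S, (I.filter (fun w => D1 w ⊆ S)).card = (I.filter (fun w => D2 w ⊆ S)).card) (S : Finset ℕ) :
    (I.filter (fun w => D1 w = S)).card = (I.filter (fun w => D2 w = S)).card := by
  classical
  induction S using Finset.strongInduction with
  | H S ih =>
    have key : ∀ D : α → Finset ℕ, (I.filter (fun w => D w ⊆ S)).card =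
        (I.filter (fun w => D w = S)).card + ∑ T ∈ S.ssubsets, (I.filter (fun w => D w = T)).card := by
      intro D
      rw [Finset.card_eq_sum_card_fiberwise (f := D) (t := S.powerset)]
      · have hp : S.powerset = insert S S.ssubsets := by
          rw [Finset.ssubsets, Finset.insert_erase]
          simp
        rw [hp, Finset.sum_insert (by simp)]
        congr 1
        · congr 1
          ext w
          simp only [Finset.mem_filter]
          constructor
          · rintro ⟨⟨h1, _⟩, h2⟩; exact ⟨h1, h2⟩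
          · rintro ⟨h1, h2⟩; exact ⟨⟨h1, h2.subset⟩, h2⟩
        · apply Finset.sum_congr rfl
          intro T hT
          congr 1
          ext w
          simp only [Finset.mem_filter]
          constructor
          · rintro ⟨⟨h1, _⟩, h2⟩; exact ⟨h1, h2⟩
          · rintro ⟨h1, h2⟩
            exact ⟨⟨h1, h2 ▸ (Finset.mem_ssubsets.mp hT).subset⟩, h2⟩
      · intro w hw
        simp only [Finset.coe_filter, Set.mem_ofPred_eq] at hw
        simp only [Finset.coe_powerset, Set.mem_preimage, Set.mem_powerset_iff, Finset.coe_subset]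
        exact hw.2
    have h1 := key D1
    have h2 := key D2
    have h3 : ∑ T ∈ S.ssubsets, (I.filter (fun w => D1 w = T)).card =
        ∑ T ∈ S.ssubsets, (I.filter (fun w => D2 w = T)).card :=
      Finset.sum_congr rfl (fun T hT => ih T (Finset.mem_ssubsets.mp hT))
    have h4 := h S
    omega

/-- The descent sets for the two orders are equidistributed on the involutions. -/
theorem card_descentSet_eq (S : Finset ℕ) :
    ((involutionsB n).filter (fun w => descentSetR w = S)).card =
    ((involutionsB n).filter (fun w => descentSet w = S)).card :=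
  card_eq_of_subset _ _ _ card_subset_eq S

theorem sum_pow_eq {α : Type*} (I : Finset α) (D : α → Finset ℕ) (hD : ∀ w ∈ I, D w ⊆ Finset.range n) :
    ∑ w ∈ I, (X : ℤ[X]) ^ (D w).card =
    ∑ S ∈ (Finset.range n).powerset, (I.filter (fun w => D w = S)).card • (X : ℤ[X]) ^ S.card := by
  rw [← Finset.sum_fiberwise_of_maps_to (g := D) (t := (Finset.range n).powerset)]
  · apply Finset.sum_congr rfl
    intro S _
    rw [← Finset.sum_const]
    apply Finset.sum_congr rfl
    intro w hw
    simp only [Finset.mem_filter] at hw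
    rw [hw.2]
  · intro w hw
    exact Finset.mem_powerset.mpr (hD w hw)

end counting

/-- **Theorem.** For every `n ≥ 1`, the statistics `des_B` and `des^B` are equidistributed on the
involutions of the hyperoctahedral group `B_n`; moreover the two descent sets are equidistributed:
every set `S` is the descent set of the same number of involutions for the two orders. -/
theorem result (n : ℕ) (_hn : 1 ≤ n) :
    (∑ w ∈ involutionsB n, (X : ℤ[X]) ^ desR w = ∑ w ∈ involutionsB n, (X : ℤ[X]) ^ des w) ∧
    ∀ S : Finset ℕ, ((involutionsB n).filter (fun w => descentSetR w = S)).card =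
      ((involutionsB n).filter (fun w => descentSet w = S)).card := by
  refine ⟨?_, card_descentSet_eq⟩
  unfold desR des
  rw [sum_pow_eq (n := n) (involutionsB n) descentSetR (fun w _ => Finset.filter_subset _ _),
    sum_pow_eq (n := n) (involutionsB n) descentSet (fun w _ => Finset.filter_subset _ _)]
  apply Finset.sum_congr rfl
  intro S _
  rw [card_descentSet_eq]

end Pool.Agent.Results.MP_eb5881_co.InvolutionDescents
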